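import Mathlib

/-!
# MP_f4ff42_al: f-noetherian completely regular semigroups need not be finitely generated
-/

set_option autoImplicit false

namespace Pool.Agent.Results.MP_f4ff42_al.NotFG

/-- A right congruence: an equivalence relation `r` such that `r a b` implies `r (a s) (b s)`. -/
structure IsRightCongruence {S : Type*} [Semigroup S] (r : S → S → Prop) : Prop where
  equiv : Equivalence r
  mul_right : ∀ a b s : S, r a b → r (a * s) (b * s)

/-- The right congruence `r` has finitely many classes. -/
def HasFiniteIndex {S : Type*} [Semigroup S] (r : S → S → Prop)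
    (hr : IsRightCongruence r) : Prop :=
  Finite (Quotient (Setoid.mk r hr.equiv))

/-- The right congruence `r` is finitely generated: it is the smallest right congruence which
contains some finite set `X` of pairs. -/
def IsFinitelyGenerated {S : Type*} [Semigroup S] (r : S → S → Prop) : Prop :=
  ∃ X : Set (S × S), X.Finite ∧ (∀ p ∈ X, r p.1 p.2) ∧
    ∀ r' : S → S → Prop, IsRightCongruence r' → (∀ p ∈ X, r' p.1 p.2) → ∀ a b, r a b → r' a b

/-- Every right congruence of finite index is finitely generated. -/
def IsFNoetherian (S : Type*) [Semigroup S] : Prop :=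
  ∀ (r : S → S → Prop) (hr : IsRightCongruence r), HasFiniteIndex r hr → IsFinitelyGenerated r

/-- `G` is a subgroup of the semigroup `S`: it is closed under multiplication and it is a group
under the multiplication of `S`. -/
def IsSubgroupOf {S : Type*} [Semigroup S] (G : Set S) : Prop :=
  (∀ x ∈ G, ∀ y ∈ G, x * y ∈ G) ∧
    ∃ e ∈ G, (∀ x ∈ G, e * x = x ∧ x * e = x) ∧ ∀ x ∈ G, ∃ y ∈ G, x * y = e ∧ y * x = e

/-- Every element of `S` lies in a subgroup of `S`. -/
def IsCompletelyRegular (S : Type*) [Semigroup S] : Prop :=
  ∀ x : S, ∃ G : Set S, x ∈ G ∧ IsSubgroupOf G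

/-- `S` is generated as a semigroup by a finite subset. -/
def IsFGSemigroup (S : Type*) [Semigroup S] : Prop :=
  ∃ F : Set S, F.Finite ∧ Subsemigroup.closure F = ⊤

/-! ### Semigroups which are finitely generated with inverses are f-noetherian -/

section general

variable {S : Type*} [Semigroup S]

theorem fNoetherian_of_unary (K : Set S) (hK : K.Finite) (inv : S → S)
    (h1 : ∀ x, x * inv x * x = x) (h2 : ∀ x, x * inv x = inv x * x)
    (h3 : ∀ x, inv x * x * inv x = inv x)
    (hgen : ∀ P : S → Prop, (∀ k ∈ K, P k) → (∀ x y, P x → P y → P (x * y)) →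
      (∀ x, P x → P (inv x)) → ∀ x, P x) : IsFNoetherian S := by
  classical
  intro r hr hfin
  let st : Setoid S := Setoid.mk r hr.equiv
  let Ω := Quotient st
  have : Finite Ω := hfin
  let q : S → Ω := fun s => Quotient.mk st s
  let rep : Ω → S := fun c => Quotient.out c
  have hqr : ∀ c, q (rep c) = c := fun c => Quotient.out_eq c
  have hq : ∀ a b, q a = q b ↔ r a b := fun a b => Quotient.eq (r := st)
  have hqm : ∀ a b s, q a = q b → q (a * s) = q (b * s) := fun a b s h =>
    (hq _ _).2 (hr.mul_right _ _ _ ((hq _ _).1 h))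
  -- the action on the classes
  let φ : S → Ω → Ω := fun s c => q (rep c * s)
  have hφq : ∀ a s, φ s (q a) = q (a * s) := fun a s => hqm _ _ _ (hqr _)
  have hφmul : ∀ s t c, φ (s * t) c = φ t (φ s c) := by
    intro s t c
    show q (rep c * (s * t)) = φ t (q (rep c * s))
    rw [hφq, mul_assoc]
  refine ⟨(fun p : Ω × S => (rep p.1 * p.2, rep (φ p.2 p.1))) '' (Set.univ ×ˢ K) ∪
    (fun k => (k, rep (q k))) '' K, ?_, ?_, ?_⟩
  · exact ((Set.finite_univ.prod hK).image _).union (hK.image _)
  · rintro p (⟨⟨c, k⟩, -, rfl⟩ | ⟨k, -, rfl⟩)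
    · exact (hq _ _).1 (hqr _).symm
    · exact (hq _ _).1 (hqr _).symm
  · intro r' hr' hX
    have hX1 : ∀ c, ∀ k ∈ K, r' (rep c * k) (rep (φ k c)) := fun c k hk =>
      hX _ (Or.inl ⟨(c, k), ⟨trivial, hk⟩, rfl⟩)
    have hX2 : ∀ k ∈ K, r' k (rep (q k)) := fun k hk => hX _ (Or.inr ⟨k, hk, rfl⟩)
    have tr : ∀ {a b c}, r' a b → r' b c → r' a c := fun h h' => hr'.equiv.trans h h'
    have sy : ∀ {a b}, r' a b → r' b a := fun h => hr'.equiv.symm h
    have rf : ∀ a, r' a a := fun a => hr'.equiv.refl a
    have key : ∀ s, r' s (rep (q s)) ∧ ∀ c, r' (rep c * s) (rep (φ s c)) := by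
      apply hgen
      · exact fun k hk => ⟨hX2 k hk, fun c => hX1 c k hk⟩
      · rintro x y ⟨hx1, hx2⟩ ⟨hy1, hy2⟩
        constructor
        · have h := tr (hr'.mul_right _ _ y hx1) (hy2 (q x))
          rwa [hφq] at h
        · intro c
          have h := tr (hr'.mul_right _ _ y (hx2 c)) (hy2 (φ x c))
          rwa [mul_assoc, ← hφmul] at h
      · rintro x ⟨hx1, hx2⟩
        set y := inv x with hy
        set e := x * y with he
        have hyx : y * x = e := (h2 x).symm
        have hex : e * x = x := h1 x
        have hxe : x * e = x := by rw [← hyx, ← mul_assoc]; exact h1 x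
        have hye : y * e = y := by rw [he, ← mul_assoc]; exact h3 x
        have hey : e * y = y := by rw [← hyx]; exact h3 x
        -- classes fixed by `e` are periodic under `x`
        let Fix := {c : Ω // φ e c = c}
        let F : Fix → Fix := fun c => ⟨φ x c.1, by rw [← hφmul, hxe]⟩
        have hFinj : Function.Injective F := by
          intro c d hcd
          have h : φ x c.1 = φ x d.1 := congrArg Subtype.val hcd
          have h' : φ y (φ x c.1) = φ y (φ x d.1) := by rw [h]
          rw [← hφmul, ← hφmul, ← he, c.2, d.2] at h'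
          exact Subtype.ext h'
        have hper : ∀ c : Fix, ∃ m : ℕ, 0 < m ∧ F^[m] c = c := by
          intro c
          obtain ⟨m, hm, h⟩ := hFinj.mem_periodicPts c
          exact ⟨m, hm, h⟩
        -- on these classes multiplication by `e` is trivial
        have hfixe : ∀ c : Fix, r' (rep c.1 * e) (rep c.1) := by
          intro c
          obtain ⟨m, hm, hc⟩ := hper c
          -- `z m` is the power of `x` with exponent `m + 1`
          have hz : ∀ m : ℕ, ∃ z : S, z * e = z ∧ ∀ c : Fix, r' (rep c.1 * z) (rep (F^[m + 1] c).1) := by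
            intro m
            induction m with
            | zero => exact ⟨x, hxe, fun c => hx2 c.1⟩
            | succ m ih =>
              obtain ⟨z, hz1, hz2⟩ := ih
              refine ⟨z * x, by rw [mul_assoc, hxe], fun c => ?_⟩
              have h := tr (hr'.mul_right _ _ x (hz2 c)) (hx2 _)
              rw [mul_assoc] at h
              rw [Function.iterate_succ_apply']
              exact h
          obtain ⟨z, hz1, hz2⟩ := hz (m - 1)
          have hm1 : m - 1 + 1 = m := by omega
          have hz3 := hz2 c
          rw [hm1, hc] at hz3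
          have h := hr'.mul_right _ _ e (sy hz3)
          rw [mul_assoc, hz1] at h
          exact tr h hz3
        have hfixy : ∀ c : Ω, φ e c = c → r' (rep c * y) (rep (φ y c)) := by
          intro c hc
          have hc' : φ e (φ y c) = φ y c := by rw [← hφmul, hye]
          have hxc : φ x (φ y c) = c := by rw [← hφmul, hyx, hc]
          have h := hx2 (φ y c)
          rw [hxc] at h
          have h' := hr'.mul_right _ _ y h
          rw [mul_assoc, ← he] at h'
          exact tr (sy h') (hfixe ⟨φ y c, hc'⟩)
        have hxyy : x * y * y = y := by rw [← he]; exact hey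
        have hgo : ∀ d : Ω, φ e d = d → r' (rep d * y * y) (rep (φ (y * y) d)) := by
          intro d hd
          have h := hr'.mul_right _ _ y (hfixy d hd)
          have h' := hfixy (φ y d) (by rw [← hφmul, hye])
          have h'' := tr h h'
          rwa [← hφmul] at h''
        constructor
        · have hd : φ e (q x) = q x := by rw [hφq, hxe]
          have h := hr'.mul_right _ _ y (hr'.mul_right _ _ y hx1)
          rw [hxyy] at h
          have h' := tr h (hgo _ hd)
          rwa [hφq, ← mul_assoc, hxyy] at h'
        · intro c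
          have hd : φ e (φ x c) = φ x c := by rw [← hφmul, hxe]
          have h := hr'.mul_right _ _ y (hr'.mul_right _ _ y (hx2 c))
          have h' := tr h (hgo _ hd)
          have e1 : rep c * x * y * y = rep c * y := by
            rw [mul_assoc, mul_assoc, ← mul_assoc x y y, hxyy]
          rwa [e1, ← hφmul, ← mul_assoc, hxyy] at h'
    intro a b hab
    have h := (key a).1
    rw [(hq a b).2 hab] at h
    exact tr h (sy (key b).1)

end general

/-! ### The example -/

/-- The disjoint union of `ℤ` and `ℤ × ℤ^(ℤ) × ℤ`. -/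
inductive E : Type
  | u : ℤ → E
  | d : ℤ → (ℤ →₀ ℤ) → ℤ → E

namespace E

/-- The basis vector with index `n`. -/
noncomputable def b (n : ℤ) : ℤ →₀ ℤ := Finsupp.single n 1

/-- The multiplication: `ℤ` acts on both sides of a Rees matrix semigroup over `ℤ^(ℤ)` with the
sandwich matrix `b (l + j)`. -/
noncomputable def mul : E → E → E
  | u m, u n => u (m + n)
  | u m, d i g l => d (m + i) g l
  | d i g l, u n => d i g (l + n)
  | d i g l, d j h m => d i (g + b (l + j) + h) m

noncomputable instance : Mul E := ⟨mul⟩

theorem uu (m n : ℤ) : (u m * u n : E) = u (m + n) := rfl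
theorem ud (m i l : ℤ) (g : ℤ →₀ ℤ) : (u m * d i g l : E) = d (m + i) g l := rfl
theorem du (n i l : ℤ) (g : ℤ →₀ ℤ) : (d i g l * u n : E) = d i g (l + n) := rfl
theorem dd (i l j m : ℤ) (g h : ℤ →₀ ℤ) :
    (d i g l * d j h m : E) = d i (g + b (l + j) + h) m := rfl

noncomputable instance : Semigroup E where
  mul_assoc x y z := by
    cases x <;> cases y <;> cases z <;> simp only [uu, ud, du, dd, add_assoc]

/-- The inverse in the subgroup of an element. -/
noncomputable def inv : E → E
  | u m => u (-m)
  | d i g l => d i (-g - b (l + i) - b (l + i)) l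

theorem mul_inv_mul (x : E) : x * inv x * x = x := by
  cases x with
  | u m => simp [inv, uu]
  | d i g l => simp only [inv, dd]; congr 1; abel

theorem mul_inv_comm (x : E) : x * inv x = inv x * x := by
  cases x with
  | u m => simp [inv, uu]
  | d i g l => simp only [inv, dd]; congr 1; abel

theorem inv_mul_inv (x : E) : inv x * x * inv x = inv x := by
  cases x with
  | u m => simp [inv, uu]
  | d i g l => simp only [inv, dd]; congr 1; abel

theorem gen (P : E → Prop) (hK : ∀ k ∈ ({u 1, u (-1), d 0 0 0} : Set E), P k)
    (hmul : ∀ x y, P x → P y → P (x * y)) (hinv : ∀ x, P x → P (inv x)) : ∀ x, P x := by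
  have hu1 : P (u 1) := hK _ (by simp)
  have hu2 : P (u (-1)) := hK _ (by simp)
  have hd : P (d 0 0 0) := hK _ (by simp)
  have hu : ∀ n, P (u n) := by
    intro n
    induction n using Int.induction_on with
    | zero => simpa [uu] using hmul _ _ hu1 hu2
    | succ n ih => simpa [uu] using hmul _ _ ih hu1
    | pred n ih => simpa [uu, sub_eq_add_neg] using hmul _ _ ih hu2
  -- the subgroup of the `h` with `P (d 0 (h - b 0) 0)`
  let A : AddSubgroup (ℤ →₀ ℤ) :=
    { carrier := {h | P (d 0 (h - b 0) 0)}
      add_mem' := by
        intro x y hx hy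
        have h := hmul _ _ hx hy
        rw [dd] at h
        have e : x - b 0 + b (0 + 0) + (y - b 0) = x + y - b 0 := by
          rw [add_zero]; abel
        rw [e] at h
        exact h
      zero_mem' := by
        have h := hmul _ _ hd (hinv _ hd)
        simp only [inv, dd] at h
        have e : (0 : ℤ →₀ ℤ) + b (0 + 0) + (-0 - b (0 + 0) - b (0 + 0)) = 0 - b 0 := by
          rw [add_zero]; abel
        rw [e] at h
        exact h
      neg_mem' := by
        intro x hx
        have h := hinv _ hx
        simp only [inv] at h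
        have e : -(x - b 0) - b (0 + 0) - b (0 + 0) = -x - b 0 := by
          rw [add_zero]; abel
        rw [e] at h
        exact h }
  have hA0 : b 0 ∈ A := by
    show P (d 0 (b 0 - b 0) 0)
    rwa [sub_self]
  have hAn : ∀ n, b n ∈ A := by
    intro n
    have h : b n + b 0 ∈ A := by
      show P (d 0 (b n + b 0 - b 0) 0)
      have h := hmul _ _ (hmul _ _ hd (hu n)) hd
      rw [du, dd] at h
      have e : (0 : ℤ →₀ ℤ) + b (0 + n + 0) + 0 = b n + b 0 - b 0 := by
        rw [add_zero, zero_add, zero_add, add_zero, add_sub_cancel_right]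
      rwa [e] at h
    have := A.sub_mem h hA0
    rwa [add_sub_cancel_right] at this
  have hA : ∀ g, g ∈ A := by
    intro g
    induction g using Finsupp.induction_linear with
    | zero => exact A.zero_mem
    | add x y hx hy => exact A.add_mem hx hy
    | single n c =>
      have h := A.zsmul_mem (hAn n) c
      have e : c • b n = Finsupp.single n c := by
        rw [b, Finsupp.smul_single, smul_eq_mul, mul_one]
      rwa [e] at h
  intro x
  cases x with
  | u n => exact hu n
  | d i g l =>
    have h : P (d 0 (g + b 0 - b 0) 0) := hA (g + b 0)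
    rw [add_sub_cancel_right] at h
    have h' := hmul _ _ (hmul _ _ (hu i) h) (hu l)
    rw [ud, du, add_zero, zero_add] at h'
    exact h'

/-- The middle coordinate. -/
noncomputable def val : E → (ℤ →₀ ℤ)
  | u _ => 0
  | d _ g _ => g

end E

/-- There is a completely regular semigroup which is f-noetherian and not finitely generated. -/
theorem result : ∃ (S : Type) (_ : Semigroup S),
    IsCompletelyRegular S ∧ IsFNoetherian S ∧ ¬ IsFGSemigroup S := by
  classical
  refine ⟨E, inferInstance, ?_, ?_, ?_⟩
  · intro x
    cases x with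
    | u n =>
      refine ⟨Set.range E.u, ⟨n, rfl⟩, ?_, E.u 0, ⟨0, rfl⟩, ?_, ?_⟩
      · rintro _ ⟨a, rfl⟩ _ ⟨c, rfl⟩
        exact ⟨a + c, rfl⟩
      · rintro _ ⟨a, rfl⟩
        simp [E.uu]
      · rintro _ ⟨a, rfl⟩
        exact ⟨E.u (-a), ⟨-a, rfl⟩, by simp [E.uu], by simp [E.uu]⟩
    | d i g l =>
      refine ⟨Set.range (fun h => E.d i h l), ⟨g, rfl⟩, ?_, E.d i (-E.b (l + i)) l, ⟨_, rfl⟩,
        ?_, ?_⟩
      · rintro _ ⟨a, rfl⟩ _ ⟨c, rfl⟩
        exact ⟨_, rfl⟩
      · rintro _ ⟨a, rfl⟩
        simp [E.dd]
      · rintro _ ⟨a, rfl⟩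
        refine ⟨E.d i (-a - E.b (l + i) - E.b (l + i)) l, ⟨_, rfl⟩, ?_, ?_⟩
        · simp only [E.dd]; congr 1; abel
        · simp only [E.dd]; congr 1; abel
  · exact fNoetherian_of_unary {E.u 1, E.u (-1), E.d 0 0 0} (Set.toFinite _) E.inv
      E.mul_inv_mul E.mul_inv_comm E.inv_mul_inv E.gen
  · rintro ⟨F, hF, hcl⟩
    have hfin : (⋃ x ∈ F, ((E.val x).support : Set ℤ)).Finite :=
      hF.biUnion fun x _ => Finset.finite_toSet _
    obtain ⟨k, hk⟩ := hfin.infinite_compl.nonempty
    have hk0 : ∀ x ∈ F, E.val x k = 0 := by
      intro x hx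
      by_contra h
      apply hk
      simp only [Set.mem_iUnion]
      exact ⟨x, hx, Finsupp.mem_support_iff.2 h⟩
    let T : Subsemigroup E :=
      { carrier := {x | 0 ≤ E.val x k}
        mul_mem' := by
          intro x y hx hy
          have hb : ∀ n, 0 ≤ E.b n k := by
            intro n
            rw [E.b, Finsupp.single_apply]
            split_ifs <;> simp
          cases x <;> cases y
          · exact le_refl (0 : ℤ)
          · exact hy
          · exact hx
          · exact add_nonneg (add_nonneg hx (hb _)) hy }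
    have hle : Subsemigroup.closure F ≤ T := by
      rw [Subsemigroup.closure_le]
      intro x hx
      exact (hk0 x hx).ge
    rw [hcl] at hle
    have h : E.d 0 (-E.b k) 0 ∈ T := hle (Subsemigroup.mem_top _)
    have h' : (0 : ℤ) ≤ (-E.b k) k := h
    rw [Finsupp.neg_apply, E.b, Finsupp.single_eq_same] at h'
    norm_num at h'

end Pool.Agent.Results.MP_f4ff42_al.NotFG
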